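import Pool.Agent.Helper35.QR.Iso

/-!
# QR, row A08: every map has a core, unique up to relabelling
-/

set_option linter.unusedSectionVars false

namespace QR

namespace H35

theorem isCore_iff {D' D : Type} [Finite D] (hA : ST_A00) {m : RMap D} {o : D}
    {ρ : Equiv.Perm D} (hρ : IsRet m.rot (outer m o) ρ) {m' : RMap D'} {o' : D'} {j : D' → D} :
    IsCore m' o' m o j ↔ Function.Injective j ∧ Hom m' (cut m ρ) j ∧ j o' = o ∧ m'.Conn := by
  constructor
  · rintro ⟨ρ', h1, h2, h3, h4, h5, h6⟩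
    have hρρ : ρ' = ρ := (hA D m.rot (outer m o)).unique h1 hρ
    subst hρρ
    exact ⟨h2, ⟨h3, h4⟩, h5, h6⟩
  · rintro ⟨h2, ⟨h3, h4⟩, h5, h6⟩
    exact ⟨ρ, hρ, h2, h3, h4, h5, h6⟩

theorem range_eq {D' D : Type} [Finite D] {m' : RMap D'} {o' : D'} {cm : RMap D} {o : D} {j : D' → D}
    (h : Hom m' cm j) (ho : j o' = o) (hc : m'.Conn) : Set.range j = comp cm o := by
  apply Set.Subset.antisymm
  · rintro _ ⟨d, rfl⟩
    have := hc o' d
    induction this with
    | refl => rw [ho]; exact mem_comp_self cm o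
    | @tail b c _ hbc ih =>
      refine Relation.ReflTransGen.tail ih ?_
      rcases hbc with h1 | h1
      · left; rw [h1, h.rot]
      · right; rw [h1, h.opp]
  · intro d hd
    change Relation.ReflTransGen (fun a b => b = cm.rot a ∨ b = cm.opp a) o d at hd
    induction hd with
    | refl => exact ⟨o', ho⟩
    | @tail b c _ hbc ih =>
      obtain ⟨x, rfl⟩ := ih
      rcases hbc with h1 | h1
      · exact ⟨m'.rot x, by rw [h1, h.rot]⟩
      · exact ⟨m'.opp x, by rw [h1, h.opp]⟩

/-- a core is isomorphic to the component -/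
theorem core_equiv {D' D : Type} [Finite D] {m' : RMap D'} {o' : D'} {cm : RMap D} {o : D}
    {j : D' → D} (hj : Function.Injective j) (h : Hom m' cm j) (ho : j o' = o) (hc : m'.Conn) :
    ∃ e : D' ≃ comp cm o, (∀ d, (e d : D) = j d) ∧ Hom m' (compMap cm o) e ∧
      e o' = ⟨o, mem_comp_self cm o⟩ := by
  have hr := range_eq h ho hc
  refine ⟨(Equiv.ofInjective j hj).trans (Equiv.setCongr hr), fun d => rfl, ?_, ?_⟩
  · exact ⟨fun d => Subtype.ext (h.rot d), fun d => Subtype.ext (h.opp d)⟩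
  · exact Subtype.ext ho

end H35

open H35

/-- **A08** -/
theorem st_A08 (hA : ST_A00) (hB : ST_A06) : ST_A08 := by
  intro N P hP x hx
  obtain ⟨ρ, hρ, -⟩ := hA _ x.1.rot (outer x.1 x.2)
  set cm := cut x.1 ρ with hcm
  have ho : x.2 ∈ outer x.1 x.2 := Equiv.Perm.SameCycle.refl _ _
  obtain ⟨⟨n, p, hp1, hpP, hnN, hq⟩, hs, -, -⟩ := (hB _ x.1 x.2 N P ρ hP hx hρ).2 (comp cm x.2)
    (compMap cm x.2) Subtype.val ⟨x.2, mem_comp_self cm x.2⟩ Subtype.val_injective
    (fun _ => rfl) (fun _ => rfl) (compMap_conn cm x.2) ho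
  refine ⟨n, p, hp1, hpP, hnN, ?_, ?_⟩
  · have hcard : Nat.card (comp cm x.2) = 4 * n + 2 * p := hq.card
    have e0 : Fin (4 * n + 2 * p) ≃ comp cm x.2 := (Finite.equivFinOfCardEq hcard).symm
    let Φ : (Fin (4 * n + 2 * p) ≃ comp cm x.2) →
        {z : (RMap (Fin (4 * n + 2 * p)) × Fin (4 * n + 2 * p)) ×
          (Fin (4 * n + 2 * p) → Fin (4 * N + 2 * P)) //
            z.1 ∈ SQ n p ∧ IsCore z.1.1 z.1.2 x.1 x.2 z.2} := fun e =>
      ⟨((relabel (compMap cm x.2) e, e.symm ⟨x.2, mem_comp_self cm x.2⟩), fun i => (e i).1), by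
        have hh := relabel_hom (compMap cm x.2) e
        have heo : e (e.symm ⟨x.2, mem_comp_self cm x.2⟩) = ⟨x.2, mem_comp_self cm x.2⟩ :=
          e.apply_symm_apply _
        refine ⟨⟨iso_isQuad e hh (by rw [heo]; exact hq), iso_simple e hh (by rw [heo]; exact hs)⟩,
          (isCore_iff hA hρ).2 ⟨?_, ⟨?_, ?_⟩, ?_, iso_conn e hh (compMap_conn cm x.2)⟩⟩
        · exact Subtype.val_injective.comp e.injective
        · intro d
          exact congrArg Subtype.val (hh.rot d)
        · intro d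
          exact congrArg Subtype.val (hh.opp d)
        · exact congrArg Subtype.val heo⟩
    have hbij : Function.Bijective Φ := by
      constructor
      · intro e e' hee
        have h1 : (fun i => (e i).1) = fun i => (e' i).1 := congrArg (fun z => z.1.2) hee
        exact Equiv.ext fun i => Subtype.ext (congrFun h1 i)
      · rintro ⟨⟨⟨m', o'⟩, j⟩, hz1, hz2⟩
        obtain ⟨hj, hh, hjo, hc⟩ := (isCore_iff hA hρ).1 hz2
        obtain ⟨e, he1, he2, he3⟩ := core_equiv hj hh hjo hc
        refine ⟨e, ?_⟩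
        apply Subtype.ext
        refine Prod.ext (Prod.ext (RMap.ext ?_ ?_) ?_) ?_
        · apply Equiv.ext
          intro d
          show e.symm ((compMap cm x.2).rot (e d)) = m'.rot d
          rw [← he2.rot, Equiv.symm_apply_apply]
        · apply Equiv.ext
          intro d
          show e.symm ((compMap cm x.2).opp (e d)) = m'.opp d
          rw [← he2.opp, Equiv.symm_apply_apply]
        · show e.symm ⟨x.2, mem_comp_self cm x.2⟩ = o'
          rw [← he3, Equiv.symm_apply_apply]
        · exact funext fun i => he1 i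
    rw [← Nat.card_eq_of_bijective Φ hbij,
      Nat.card_congr (Equiv.equivCongr (Equiv.refl (Fin (4 * n + 2 * p))) e0.symm),
      Nat.card_eq_fintype_card]
    exact (Fintype.card_perm (α := Fin (4 * n + 2 * p))).trans (by rw [Fintype.card_fin])
  · intro n' p' y j hy hz
    obtain ⟨hj, hh, hjo, hc⟩ := (isCore_iff hA hρ).1 hz
    obtain ⟨e, he1, he2, he3⟩ := core_equiv hj hh hjo hc
    have h1 : 4 * n' + 2 * p' = 4 * n + 2 * p := by
      rw [← hq.card, ← Nat.card_congr e, Nat.card_fin]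
    have h2 : 2 * p' = 2 * p := by
      rw [← hq.outer, ← he3, ← iso_fdeg e he2, hy.1.outer]
    omega

end QR
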