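import Pool.Agent.Helper35.QR.Iso

/-!
# QR, row AA: the interface of block A
-/

set_option linter.unusedSectionVars false

namespace QR

namespace H35

open Classical Filter Topology

theorem finiteRMap (D : Type) [Finite D] : Finite (RMap D) :=
  Finite.of_injective (fun m : RMap D => (m.rot, m.opp)) fun _ _ h =>
    RMap.ext (congrArg Prod.fst h) (congrArg Prod.snd h)

theorem card_eq_sum {α : Type} [Fintype α] (P : α → Prop) [DecidablePred P] :
    (Nat.card {z // P z} : ℝ) = ∑ a, if P a then (1 : ℝ) else 0 := by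
  rw [Nat.card_eq_fintype_card, Fintype.card_subtype, Finset.sum_boole]

theorem finsum_mem_eq {α : Type} [Fintype α] (s : Set α) [DecidablePred (· ∈ s)] (f : α → ℝ) :
    (∑ᶠ (x) (_ : x ∈ s), f x) = ∑ x, if x ∈ s then f x else 0 := by
  rw [finsum_mem_def, finsum_eq_sum_of_fintype]
  exact Finset.sum_congr rfl fun x _ => Set.indicator_apply s f x

/-- double counting -/
theorem double_count {A B J : Type} [Fintype A] [Fintype B] [Fintype J] (G : A → Prop)
    (S : B → Prop) (C : A → B → J → Prop) (f : A → ℝ) (g : B → ℝ) (F R : ℕ) (hF : 0 < F)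
    (h1 : ∀ x, G x → (∃ y, S y ∧ ∃ j, C x y j) →
      Nat.card {z : B × J // S z.1 ∧ C x z.1 z.2} = F)
    (h2 : ∀ y, S y → Nat.card {z : A × J // G z.1 ∧ C z.1 y z.2} = R)
    (hfg : ∀ x y j, G x → S y → C x y j → g y ≤ f x) (hS : ∃ y, S y) :
    (Nat.card {x // G x ∧ ∃ y, S y ∧ ∃ j, C x y j} : ℝ) *
      ((∑ y, if S y then g y else 0) / (Nat.card {y // S y} : ℝ)) ≤
      ∑ x, if (G x ∧ ∃ y, S y ∧ ∃ j, C x y j) then f x else 0 := by
  set χ : A → B → J → ℝ := fun x y j => if (G x ∧ S y ∧ C x y j) then 1 else 0 with hχ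
  have hT : ∀ x, ∑ y, ∑ j, χ x y j =
      if (G x ∧ ∃ y, S y ∧ ∃ j, C x y j) then (F : ℝ) else 0 := by
    intro x
    by_cases hx : G x ∧ ∃ y, S y ∧ ∃ j, C x y j
    · rw [if_pos hx, ← h1 x hx.1 hx.2, card_eq_sum, Fintype.sum_prod_type]
      refine Finset.sum_congr rfl fun y _ => Finset.sum_congr rfl fun j _ => ?_
      simp only [hχ, hx.1, true_and]
    · rw [if_neg hx]
      refine Finset.sum_eq_zero fun y _ => Finset.sum_eq_zero fun j _ => ?_
      simp only [hχ]
      rw [if_neg]
      rintro ⟨a, b, d⟩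
      exact hx ⟨a, y, b, j, d⟩
  have hU : ∀ y, ∑ x, ∑ j, χ x y j = if S y then (R : ℝ) else 0 := by
    intro y
    by_cases hy : S y
    · rw [if_pos hy, ← h2 y hy, card_eq_sum, Fintype.sum_prod_type]
      refine Finset.sum_congr rfl fun x _ => Finset.sum_congr rfl fun j _ => ?_
      simp only [hχ, hy, true_and]
    · rw [if_neg hy]
      refine Finset.sum_eq_zero fun x _ => Finset.sum_eq_zero fun j _ => ?_
      simp only [hχ]
      rw [if_neg]
      rintro ⟨_, b, _⟩
      exact hy b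
  have hFR : (Nat.card {x // G x ∧ ∃ y, S y ∧ ∃ j, C x y j} : ℝ) * F =
      (Nat.card {y // S y} : ℝ) * R := by
    rw [card_eq_sum, card_eq_sum, Finset.sum_mul, Finset.sum_mul]
    calc ∑ x, (if (G x ∧ ∃ y, S y ∧ ∃ j, C x y j) then (1 : ℝ) else 0) * F
        = ∑ x, ∑ y, ∑ j, χ x y j := by
          refine Finset.sum_congr rfl fun x _ => ?_
          rw [hT x, ite_mul, one_mul, zero_mul]
      _ = ∑ y, ∑ x, ∑ j, χ x y j := Finset.sum_comm
      _ = ∑ y, (if S y then (1 : ℝ) else 0) * R := by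
          refine Finset.sum_congr rfl fun y _ => ?_
          rw [hU y, ite_mul, one_mul, zero_mul]
  have hineq : (R : ℝ) * (∑ y, if S y then g y else 0) ≤
      (F : ℝ) * ∑ x, if (G x ∧ ∃ y, S y ∧ ∃ j, C x y j) then f x else 0 := by
    calc (R : ℝ) * (∑ y, if S y then g y else 0)
        = ∑ y, ∑ x, ∑ j, χ x y j * g y := by
          rw [Finset.mul_sum]
          refine Finset.sum_congr rfl fun y _ => ?_
          simp only [← Finset.sum_mul]
          rw [hU y]
          split_ifs <;> ring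
      _ = ∑ x, ∑ y, ∑ j, χ x y j * g y := Finset.sum_comm
      _ ≤ ∑ x, ∑ y, ∑ j, χ x y j * f x := by
          refine Finset.sum_le_sum fun x _ => Finset.sum_le_sum fun y _ =>
            Finset.sum_le_sum fun j _ => ?_
          simp only [hχ]
          split_ifs with h
          · rw [one_mul, one_mul]; exact hfg x y j h.1 h.2.1 h.2.2
          · rw [zero_mul, zero_mul]
      _ = (F : ℝ) * ∑ x, if (G x ∧ ∃ y, S y ∧ ∃ j, C x y j) then f x else 0 := by
          rw [Finset.mul_sum]
          refine Finset.sum_congr rfl fun x _ => ?_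
          simp only [← Finset.sum_mul]
          rw [hT x]
          split_ifs <;> ring
  have hSpos : (0 : ℝ) < Nat.card {y // S y} := by
    obtain ⟨y, hy⟩ := hS
    have : Nonempty {y // S y} := ⟨⟨y, hy⟩⟩
    exact_mod_cast Nat.card_pos
  have hFpos : (0 : ℝ) < F := by exact_mod_cast hF
  refine le_of_mul_le_mul_left ?_ hFpos
  refine le_trans (le_of_eq ?_) hineq
  rw [mul_div_assoc', mul_div_assoc', div_eq_iff hSpos.ne']
  linear_combination (∑ y, if S y then g y else 0) * hFR

theorem uu_pos {N P : ℕ} : 0 < uu N P := by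
  unfold uu
  have h : ∀ k : ℕ, (0 : ℝ) < (k.factorial : ℝ) := fun k => by exact_mod_cast k.factorial_pos
  have h1 := h (2 * P)
  have h2 := h (2 * N + P - 1)
  have h3 := h P
  have h4 := h (P - 1)
  have h5 := h N
  have h6 := h (N + P + 1)
  positivity

end H35

open H35 Classical Filter Topology in
/-- **AA**: the interface of block A -/
theorem st_AA (h07 : ST_A07) (h08 : ST_A08) (h09 : ST_A09) (h14 : ST_A14) : ST_A := by
  intro huu
  obtain ⟨c, P0, hc, hP0, hmain⟩ := h14 huu
  refine ⟨c, P0, hc, hP0, fun P hP => (hmain P hP).mono fun N hN => ?_⟩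
  have hP1 : 1 ≤ P := hP0.trans hP
  have : ∀ k : ℕ, Finite (RMap (Fin k)) := fun k => finiteRMap _
  let _ : ∀ k : ℕ, Fintype (RMap (Fin k)) := fun k => Fintype.ofFinite _
  have hGpos : (0 : ℝ) < Nat.card {x // x ∈ GQ N P} := by
    rw [huu N P hP1]
    have : (0 : ℝ) < ((4 * N + 2 * P).factorial : ℝ) := by
      exact_mod_cast Nat.factorial_pos _
    exact mul_pos this uu_pos
  set Ty : ℕ × ℕ → (RMap (Fin (4 * N + 2 * P)) × Fin (4 * N + 2 * P)) → Prop := fun i x =>
    x ∈ GQ N P ∧ ∃ y, y ∈ SQ i.1 i.2 ∧ ∃ j : Fin (4 * i.1 + 2 * i.2) → Fin (4 * N + 2 * P),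
      IsCore y.1 y.2 x.1 x.2 j with hTy
  set I : Finset (ℕ × ℕ) := (Finset.range (N + 1) ×ˢ Finset.range (P + 1)).filter
    (fun i => N ≤ 2 * P * i.1 ∧ c * P ≤ i.2 ∧ 1 ≤ i.2 ∧ (SQ i.1 i.2).Nonempty) with hI
  set w : ℕ × ℕ → ℝ := fun i => (Nat.card {x // Ty i x} : ℝ) / Nat.card {x // x ∈ GQ N P} with hw
  refine ⟨I, w, ?_, ?_, ?_⟩
  · intro i hi
    rw [hI, Finset.mem_filter, Finset.mem_product, Finset.mem_range, Finset.mem_range] at hi
    obtain ⟨⟨-, h2⟩, h3, h4, h5, h6⟩ := hi
    exact ⟨div_nonneg (Nat.cast_nonneg _) (Nat.cast_nonneg _), h3, h4, h5, by omega, h6⟩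
  · rw [hw, ← Finset.sum_div, le_div_iff₀ hGpos]
    refine hN.trans ?_
    rw [card_eq_sum]
    calc ∑ x, (if (x ∈ GQ N P ∧ ∃ (n p : ℕ), 1 ≤ p ∧ p ≤ P ∧ n ≤ N ∧ N ≤ 2 * P * n ∧ c * P ≤ p ∧
        ∃ y ∈ SQ n p, ∃ j : Fin (4 * n + 2 * p) → Fin (4 * N + 2 * P),
          IsCore y.1 y.2 x.1 x.2 j) then (1 : ℝ) else 0)
        ≤ ∑ x, ∑ i ∈ I, (if Ty i x then (1 : ℝ) else 0) := by
          refine Finset.sum_le_sum fun x _ => ?_
          have hnn : ∀ i ∈ I, (0 : ℝ) ≤ (if Ty i x then (1 : ℝ) else 0) := by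
            intro i _
            split_ifs <;> norm_num
          split_ifs with h
          · obtain ⟨hx, n, p, h1, h2, h3, h4, h5, y, hy, j, hj⟩ := h
            have hmem : (n, p) ∈ I := by
              rw [hI, Finset.mem_filter, Finset.mem_product, Finset.mem_range, Finset.mem_range]
              exact ⟨⟨by show n < N + 1; omega, by show p < P + 1; omega⟩, h4, h5, h1, ⟨y, hy⟩⟩
            have hT : Ty (n, p) x := ⟨hx, y, hy, j, hj⟩
            calc (1 : ℝ) = (if Ty (n, p) x then (1 : ℝ) else 0) := by rw [if_pos hT]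
              _ ≤ _ := Finset.single_le_sum hnn hmem
          · exact Finset.sum_nonneg hnn
      _ = ∑ i ∈ I, ∑ x, (if Ty i x then (1 : ℝ) else 0) := Finset.sum_comm
      _ = ∑ i ∈ I, (Nat.card {x // Ty i x} : ℝ) :=
          Finset.sum_congr rfl fun i _ => (card_eq_sum _).symm
  · intro X hX0 hX
    unfold avG avS
    rw [finsum_mem_eq, le_div_iff₀ hGpos, Finset.sum_mul]
    calc ∑ i ∈ I, w i * ((∑ᶠ (x) (_ : x ∈ SQ i.1 i.2), X _ x.1 x.2) /
          (Nat.card {x // x ∈ SQ i.1 i.2} : ℝ)) * (Nat.card {x // x ∈ GQ N P} : ℝ)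
        ≤ ∑ i ∈ I, ∑ x, (if Ty i x then X _ x.1 x.2 else 0) := by
          refine Finset.sum_le_sum fun i hi => ?_
          rw [hI, Finset.mem_filter, Finset.mem_product, Finset.mem_range, Finset.mem_range] at hi
          obtain ⟨⟨h1, h2⟩, h3, h4, h5, h6⟩ := hi
          rw [finsum_mem_eq]
          have hww : w i * ((∑ x, if x ∈ SQ i.1 i.2 then X _ x.1 x.2 else 0) /
              (Nat.card {x // x ∈ SQ i.1 i.2} : ℝ)) * (Nat.card {x // x ∈ GQ N P} : ℝ) =
              (Nat.card {x // Ty i x} : ℝ) * ((∑ x, if x ∈ SQ i.1 i.2 then X _ x.1 x.2 else 0) /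
              (Nat.card {x // x ∈ SQ i.1 i.2} : ℝ)) := by
            rw [hw]
            field_simp
          rw [hww]
          obtain ⟨y0, hy0⟩ := h6
          refine double_count (J := Fin (4 * i.1 + 2 * i.2) → Fin (4 * N + 2 * P))
            (fun x => x ∈ GQ N P) (fun y => y ∈ SQ i.1 i.2)
            (fun x y j => IsCore y.1 y.2 x.1 x.2 j) (fun x => X _ x.1 x.2)
            (fun y => X _ y.1 y.2) (4 * i.1 + 2 * i.2).factorial
            (Nat.card {z : (RMap (Fin (4 * N + 2 * P)) × Fin (4 * N + 2 * P)) ×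
              (Fin (4 * i.1 + 2 * i.2) → Fin (4 * N + 2 * P)) // z.1 ∈ GQ N P ∧
                IsCore y0.1 y0.2 z.1.1 z.1.2 z.2}) (Nat.factorial_pos _) ?_ ?_ ?_ ⟨y0, hy0⟩
          · intro x hx hex
            obtain ⟨y, hy, j, hj⟩ := hex
            obtain ⟨n, p, -, -, -, hcard, huniq⟩ := h08 N P hP1 x hx
            obtain ⟨hn, hp⟩ := huniq i.1 i.2 y j hy hj
            subst hn
            subst hp
            exact hcard
          · intro y hy
            exact h07 N P i.1 i.2 hP1 h5 y hy y0 hy0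
          · intro x y j hx hy hj
            exact hX _ _ _ _ _ _ (h09 N P _ _ x.1 x.2 y.1 y.2 j hP1 hx hj)
      _ = ∑ x, ∑ i ∈ I, (if Ty i x then X _ x.1 x.2 else 0) := Finset.sum_comm
      _ ≤ ∑ x, (if x ∈ GQ N P then X _ x.1 x.2 else 0) := by
          refine Finset.sum_le_sum fun x _ => ?_
          split_ifs with hx
          · obtain ⟨n, p, -, -, -, hcard, huniq⟩ := h08 N P hP1 x hx
            calc ∑ i ∈ I, (if Ty i x then X _ x.1 x.2 else 0)
                ≤ ∑ i ∈ I, (if i = (n, p) then X _ x.1 x.2 else 0) := by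
                  refine Finset.sum_le_sum fun i _ => ?_
                  by_cases hT : Ty i x
                  · obtain ⟨-, y, hy, j, hj⟩ := hT
                    obtain ⟨hn, hp⟩ := huniq i.1 i.2 y j hy hj
                    rw [if_pos (Prod.ext hn hp : i = (n, p))]
                    split_ifs
                    · exact le_rfl
                    · exact hX0 _ _ _
                  · rw [if_neg hT]
                    split_ifs
                    · exact hX0 _ _ _
                    · exact le_rfl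
              _ ≤ X _ x.1 x.2 := by
                  rw [Finset.sum_ite_eq']
                  split_ifs
                  · exact le_rfl
                  · exact hX0 _ _ _
          · refine le_of_eq (Finset.sum_eq_zero fun i _ => ?_)
            rw [if_neg]
            exact fun h => hx h.1

end QR
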