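import Pool.Agent.Helper98.QR.StmtsA

/-!
# Isomorphisms of maps, the component of a dart
-/

set_option linter.unusedSectionVars false

namespace QR

namespace H35

theorem semi_zpow {A B : Type} (φ : A → B) (f : Equiv.Perm A) (g : Equiv.Perm B)
    (h : ∀ x, φ (f x) = g (φ x)) (i : ℤ) (x : A) : φ ((f ^ i) x) = (g ^ i) (φ x) := by
  have hnat : ∀ (n : ℕ) (x : A), φ ((f ^ n) x) = (g ^ n) (φ x) := by
    intro n
    induction n with
    | zero => intro x; rfl
    | succ n ih =>
      intro x
      rw [pow_succ, pow_succ]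
      show φ ((f ^ n) (f x)) = (g ^ n) (g (φ x))
      rw [ih, h]
  cases i with
  | ofNat n => exact hnat n x
  | negSucc n =>
    rw [zpow_negSucc, zpow_negSucc, Equiv.Perm.eq_inv_iff_eq, ← hnat]
    exact congrArg φ ((f ^ (n + 1)).apply_symm_apply x)

theorem sameCycle_iff {A B : Type} {φ : A → B} (hφ : Function.Injective φ) {f : Equiv.Perm A}
    {g : Equiv.Perm B} (h : ∀ x, φ (f x) = g (φ x)) (x y : A) :
    f.SameCycle x y ↔ g.SameCycle (φ x) (φ y) := by
  constructor
  · rintro ⟨i, rfl⟩
    exact ⟨i, (semi_zpow φ f g h i x).symm⟩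
  · rintro ⟨i, hi⟩
    refine ⟨i, hφ ?_⟩
    rw [semi_zpow φ f g h, hi]

variable {D₁ D₂ : Type}

/-- `φ` commutes with the structure -/
structure Hom (m₁ : RMap D₁) (m₂ : RMap D₂) (φ : D₁ → D₂) : Prop where
  rot : ∀ d, φ (m₁.rot d) = m₂.rot (φ d)
  opp : ∀ d, φ (m₁.opp d) = m₂.opp (φ d)

theorem Hom.face {m₁ : RMap D₁} {m₂ : RMap D₂} {φ : D₁ → D₂} (h : Hom m₁ m₂ φ) (d : D₁) :
    φ (m₁.face d) = m₂.face (φ d) := by
  show φ (m₁.rot (m₁.opp d)) = m₂.rot (m₂.opp (φ d))
  rw [h.rot, h.opp]

section iso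

variable {m₁ : RMap D₁} {m₂ : RMap D₂} (φ : D₁ ≃ D₂) (h : Hom m₁ m₂ φ)
include h

theorem card_cyc_eq {f : Equiv.Perm D₁} {g : Equiv.Perm D₂} (hfg : ∀ x, φ (f x) = g (φ x)) :
    Nat.card (Quotient (Equiv.Perm.SameCycle.setoid f)) =
      Nat.card (Quotient (Equiv.Perm.SameCycle.setoid g)) :=
  Nat.card_congr (Quotient.congr φ fun x y => sameCycle_iff φ.injective hfg x y)

theorem iso_fdeg (o : D₁) : m₁.fdeg o = m₂.fdeg (φ o) :=
  Nat.card_congr (φ.subtypeEquiv fun d => sameCycle_iff φ.injective h.face o d)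

theorem iso_tail (d e : D₁) : m₁.tail d = m₁.tail e ↔ m₂.tail (φ d) = m₂.tail (φ e) := by
  unfold RMap.tail
  rw [Quotient.eq, Quotient.eq]
  exact sameCycle_iff φ.injective h.rot d e

theorem iso_conn (hc : m₂.Conn) : m₁.Conn := by
  intro d d'
  have key : ∀ x y : D₂, Relation.ReflTransGen (fun a b => b = m₂.rot a ∨ b = m₂.opp a) x y →
      Relation.ReflTransGen (fun a b => b = m₁.rot a ∨ b = m₁.opp a) (φ.symm x) (φ.symm y) := by
    intro x y hxy
    induction hxy with
    | refl => exact Relation.ReflTransGen.refl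
    | @tail b c _ hbc ih =>
      refine ih.tail ?_
      rcases hbc with hbc | hbc
      · left
        apply φ.injective
        rw [h.rot, Equiv.apply_symm_apply, Equiv.apply_symm_apply, hbc]
      · right
        apply φ.injective
        rw [h.opp, Equiv.apply_symm_apply, Equiv.apply_symm_apply, hbc]
  simpa using key _ _ (hc (φ d) (φ d'))

theorem iso_isQuad {o : D₁} {n p : ℕ} (hq : m₂.IsQuad (φ o) n p) : m₁.IsQuad o n p where
  planar := by
    obtain ⟨h1, h2, h3⟩ := hq.planar
    refine ⟨⟨o⟩, iso_conn φ h h2, ?_⟩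
    rw [show Nat.card m₁.Vert = Nat.card m₂.Vert from card_cyc_eq φ h h.rot,
      show Nat.card m₁.Face = Nat.card m₂.Face from card_cyc_eq φ h h.face, h3,
      Nat.card_congr φ]
  outer := by rw [iso_fdeg φ h, hq.outer]
  inner := by
    intro d hd
    rw [iso_fdeg φ h]
    exact hq.inner _ (fun h1 => hd ((sameCycle_iff φ.injective h.face o d).2 h1))
  card := by rw [Nat.card_congr φ, hq.card]

theorem iso_simple {o : D₁} (hs : m₂.Simple (φ o)) : m₁.Simple o := by
  intro d d' h1 h2 h3
  apply φ.injective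
  exact hs _ _ ((sameCycle_iff φ.injective h.face o d).1 h1)
    ((sameCycle_iff φ.injective h.face o d').1 h2) ((iso_tail φ h d d').1 h3)

end iso

/-- the map `m` with the darts renamed -/
def relabel (m : RMap D₂) (φ : D₁ ≃ D₂) : RMap D₁ where
  rot := (φ.trans m.rot).trans φ.symm
  opp := (φ.trans m.opp).trans φ.symm
  opp_opp := fun d => by simp [m.opp_opp]
  opp_ne := fun d => by
    intro h1
    have h2 : φ (φ.symm (m.opp (φ d))) = φ d := congrArg φ h1
    rw [Equiv.apply_symm_apply] at h2
    exact m.opp_ne _ h2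

theorem relabel_hom (m : RMap D₂) (φ : D₁ ≃ D₂) : Hom (relabel m φ) m φ where
  rot := fun d => Equiv.apply_symm_apply φ _
  opp := fun d => Equiv.apply_symm_apply φ _

/-! ### The component of a dart -/

section comp

variable {D : Type} [Finite D] (m : RMap D)

/-- the darts which are connected to `o` -/
def comp (o : D) : Set D :=
  {d | Relation.ReflTransGen (fun a b => b = m.rot a ∨ b = m.opp a) o d}

theorem mem_comp_self (o : D) : o ∈ comp m o := Relation.ReflTransGen.refl

variable {m}

theorem comp_rot {o d : D} (hd : d ∈ comp m o) : m.rot d ∈ comp m o :=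
  Relation.ReflTransGen.tail hd (Or.inl rfl)

theorem comp_opp {o d : D} (hd : d ∈ comp m o) : m.opp d ∈ comp m o :=
  Relation.ReflTransGen.tail hd (Or.inr rfl)

theorem comp_rot_iff {o : D} (d : D) : d ∈ comp m o ↔ m.rot d ∈ comp m o := by
  refine ⟨comp_rot, fun h => ?_⟩
  have hpow : ∀ (k : ℕ) (x : D), x ∈ comp m o → (m.rot ^ k) x ∈ comp m o := by
    intro k
    induction k with
    | zero => intro x hx; exact hx
    | succ k ih => intro x hx; rw [pow_succ]; exact ih _ (comp_rot hx)
  have h1 := hpow (orderOf m.rot - 1) _ h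
  have h2 : (m.rot ^ (orderOf m.rot - 1)) (m.rot d) = d := by
    show ((m.rot ^ (orderOf m.rot - 1)) * m.rot) d = d
    rw [← pow_succ, Nat.sub_add_cancel (orderOf_pos _), pow_orderOf_eq_one]
    rfl
  rwa [h2] at h1

theorem comp_opp_iff {o : D} (d : D) : d ∈ comp m o ↔ m.opp d ∈ comp m o := by
  refine ⟨comp_opp, fun h => ?_⟩
  have := comp_opp h
  rwa [m.opp_opp] at this

variable (m)

/-- the component of `o` as a map -/
def compMap (o : D) : RMap (comp m o) where
  rot := m.rot.subtypePerm fun d => (comp_rot_iff d).symm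
  opp := m.opp.subtypePerm fun d => (comp_opp_iff d).symm
  opp_opp := fun d => Subtype.ext (m.opp_opp d)
  opp_ne := fun d h => m.opp_ne d (congrArg Subtype.val h)

theorem compMap_hom (o : D) : Hom (compMap m o) m Subtype.val where
  rot := fun _ => rfl
  opp := fun _ => rfl

/-- reachability is symmetric -/
theorem reach_symm {a b : D}
    (h : Relation.ReflTransGen (fun a b => b = m.rot a ∨ b = m.opp a) a b) :
    Relation.ReflTransGen (fun a b => b = m.rot a ∨ b = m.opp a) b a := by
  induction h with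
  | refl => exact Relation.ReflTransGen.refl
  | @tail b c _ hbc ih =>
    refine Relation.ReflTransGen.trans ?_ ih
    have : b ∈ comp m c := by
      rcases hbc with h1 | h1
      · rw [comp_rot_iff, ← h1]; exact mem_comp_self m c
      · rw [comp_opp_iff, ← h1]; exact mem_comp_self m c
    exact this

theorem compMap_conn (o : D) : (compMap m o).Conn := by
  have key : ∀ (d : D) (hd : d ∈ comp m o), Relation.ReflTransGen
      (fun a b => b = (compMap m o).rot a ∨ b = (compMap m o).opp a) ⟨o, mem_comp_self m o⟩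
      ⟨d, hd⟩ := by
    intro d hd
    have hd' := hd
    change Relation.ReflTransGen (fun a b => b = m.rot a ∨ b = m.opp a) o d at hd'
    induction hd' with
    | refl => exact Relation.ReflTransGen.refl
    | @tail b c h1 hbc ih =>
      refine (ih h1).tail ?_
      rcases hbc with h2 | h2
      · exact Or.inl (Subtype.ext h2)
      · exact Or.inr (Subtype.ext h2)
  intro d d'
  exact (reach_symm _ (key d d.2)).trans (key d' d'.2)

end comp

end H35

end QR
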